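import Mathlib

/-!
# All words: lists of positive integers with a given sum, the excess
-/

set_option autoImplicit false

namespace Pool.Agent.L5helper14.AW

/-- the lists of positive integers with sum `k` -/
def Cp (k : ℕ) : Finset (List ℕ) := (Finset.univ : Finset (Composition k)).image Composition.blocks

lemma mem_Cp (k : ℕ) (w : List ℕ) : w ∈ Cp k ↔ (∀ x ∈ w, 1 ≤ x) ∧ w.sum = k := by
  rw [Cp, Finset.mem_image]
  constructor
  · rintro ⟨c, -, rfl⟩
    exact ⟨fun x hx => c.one_le_blocks hx, c.blocks_sum⟩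
  · rintro ⟨h1, h2⟩
    exact ⟨⟨w, fun {i} hi => h1 i hi, h2⟩, Finset.mem_univ _, rfl⟩

/-- the excess of a word: weight minus depth -/
def ex (w : List ℕ) : ℕ := w.sum - w.length

end Pool.Agent.L5helper14.AW
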