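import Mathlib
import Pool.Agent.L5helper85.HW.Gap
import Pool.Agent.L5helper14.AW.Defs

/-!
# Nested sums with arbitrary positive letters whose small variables leave a gap
-/

set_option autoImplicit false

namespace Pool.Agent.L5helper14.AW

open Finset
open Pool.Agent.L5helper80.MZ (U U_nil U_cons U_app D D_pos H_ge_D H_zero)
open Pool.Agent.H447R2.MZ (H H_nil H_cons H_cons_zero H_cons_succ H_nonneg H_mono)
open Pool.Agent.L5helper85.HW (T T_nil T_cons T_nonneg HD_le' A A_cons A_nil A_eq A_zero A_anti A_ge)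

lemma length_le_sum {w : List ℕ} (h : ∀ x ∈ w, 1 ≤ x) : w.length ≤ w.sum := by
  induction w with
  | nil => simp
  | cons a w ih =>
    have h1 := h a (by simp)
    have h2 := ih fun x hx => h x (by simp [hx])
    rw [List.length_cons, List.sum_cons]
    omega

lemma ex_nil : ex [] = 0 := rfl

lemma ex_cons {c : ℕ} {w : List ℕ} (hc : 1 ≤ c) (h : ∀ x ∈ w, 1 ≤ x) : ex (c :: w) = (c - 1) + ex w := by
  have := length_le_sum h
  rw [ex, ex, List.sum_cons, List.length_cons]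
  omega

lemma ex_app {v w : List ℕ} (hv : ∀ x ∈ v, 1 ≤ x) (h : ∀ x ∈ w, 1 ≤ x) : ex (v ++ w) = ex v + ex w := by
  have := length_le_sum h
  have := length_le_sum hv
  rw [ex, ex, ex, List.sum_append, List.length_append]
  omega

lemma ex_reverse (w : List ℕ) : ex w.reverse = ex w := by
  rw [ex, ex, List.sum_reverse, List.length_reverse]

/-- the elementary inequality -/
lemma pow_ineq (x e : ℝ) (hx : 0 < x) (he : 0 ≤ e) (k : ℕ) :
    (x + 1 + e + k) * x ^ k ≤ (x + 1) ^ k * (x + 1 + e) := by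
  induction k with
  | zero => simp
  | succ k ih =>
    have hk : (0 : ℝ) ≤ k := Nat.cast_nonneg k
    have h1 : 0 < x ^ k := by positivity
    have h2 : (x + 1 + e + (k + 1)) * x ≤ (x + 1 + e + k) * (x + 1) := by nlinarith
    calc (x + 1 + e + ((k + 1 : ℕ) : ℝ)) * x ^ (k + 1) = ((x + 1 + e + (k + 1)) * x) * x ^ k := by push_cast; ring
      _ ≤ ((x + 1 + e + k) * (x + 1)) * x ^ k := mul_le_mul_of_nonneg_right h2 h1.le
      _ = ((x + 1 + e + k) * x ^ k) * (x + 1) := by ring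
      _ ≤ ((x + 1) ^ k * (x + 1 + e)) * (x + 1) := mul_le_mul_of_nonneg_right ih (by linarith)
      _ = _ := by ring

/-- the term of the sum -/
noncomputable def g (M c : ℕ) (cs : List ℕ) (m : ℕ) : ℝ := (((m + 1 : ℕ) : ℝ) ^ c)⁻¹ * T M cs (m + 1)

lemma g_nonneg (M c : ℕ) (cs : List ℕ) (m : ℕ) : 0 ≤ g M c cs m :=
  mul_nonneg (by positivity) (T_nonneg M cs (m + 1))

lemma T_split (M c : ℕ) (cs : List ℕ) (N : ℕ) (h : N < M) :
    T M (c :: cs) N = g M c cs N + T M (c :: cs) (N + 1) := by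
  rw [T_cons, T_cons, ← sum_Ico_consecutive _ (by omega : N ≤ N + 1) (by omega : N + 1 ≤ M)]
  congr 1
  rw [Nat.Ico_succ_singleton, sum_singleton, g]

lemma T_empty (M c : ℕ) (cs : List ℕ) (N : ℕ) (h : M ≤ N) : T M (c :: cs) N = 0 := by
  rw [T_cons, Ico_eq_empty (by omega), sum_empty]

/-- decay of the nested sums -/
lemma decay (M : ℕ) : ∀ cs : List ℕ, (∀ x ∈ cs, 1 ≤ x) →
    (∀ N : ℕ, ((N : ℝ) + 1 + ex cs) * T M cs (N + 1) ≤ ((N : ℝ) + 1) * T M cs N) ∧
    ∀ (c : ℕ), 1 ≤ c → ∀ N : ℕ, ((ex (c :: cs) : ℕ) : ℝ) * T M (c :: cs) (N + 1) ≤ ((N : ℝ) + 1) * g M c cs N := by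
  have main : ∀ cs : List ℕ, (∀ x ∈ cs, 1 ≤ x) →
      (∀ N : ℕ, ((N : ℝ) + 1 + ex cs) * T M cs (N + 1) ≤ ((N : ℝ) + 1) * T M cs N) →
      ∀ (c : ℕ), 1 ≤ c → ∀ N : ℕ, ((ex (c :: cs) : ℕ) : ℝ) * T M (c :: cs) (N + 1) ≤ ((N : ℝ) + 1) * g M c cs N := by
    intro cs hcs hst c hc
    obtain ⟨k, rfl⟩ : ∃ k, c = k + 1 := ⟨c - 1, by omega⟩
    have hex : ((ex ((k + 1) :: cs) : ℕ) : ℝ) = k + ex cs := by
      rw [ex_cons hc hcs]
      push_cast
      simp
    have step : ∀ m : ℕ, ((m : ℝ) + 2 + ((ex ((k + 1) :: cs) : ℕ) : ℝ)) * g M (k + 1) cs (m + 1) ≤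
        ((m : ℝ) + 1) * g M (k + 1) cs m := by
      intro m
      rw [hex]
      have h1 := hst (m + 1)
      have h2 := pow_ineq ((m : ℝ) + 1) (ex cs) (by positivity) (Nat.cast_nonneg _) k
      have hS := T_nonneg M cs (m + 1 + 1)
      have hS1 := T_nonneg M cs (m + 1)
      set S2 := T M cs (m + 1 + 1) with hS2d
      set S1 := T M cs (m + 1) with hS1d
      set e : ℝ := (ex cs : ℝ) with he
      have he0 : 0 ≤ e := Nat.cast_nonneg _
      rw [g, g, ← hS2d, ← hS1d]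
      have c1 : (((m + 1 + 1 : ℕ) : ℝ)) = (m : ℝ) + 1 + 1 := by push_cast; ring
      have c2 : (((m + 1 : ℕ) : ℝ)) = (m : ℝ) + 1 := by push_cast; ring
      rw [c1, c2]
      rw [c2] at h1
      set x : ℝ := (m : ℝ) + 1 with hx
      have hx0 : 0 < x := by rw [hx]; positivity
      have hm2 : (m : ℝ) + 2 = x + 1 := by rw [hx]; ring
      rw [hm2]
      -- h1 : (x + 1 + e) * S2 ≤ (x + 1) * S1
      have h3 : (x + 1 + (k + e)) * x ^ k * S2 ≤ (x + 1) ^ k * ((x + 1) * S1) := by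
        calc (x + 1 + (k + e)) * x ^ k * S2 = ((x + 1 + e + k) * x ^ k) * S2 := by ring
          _ ≤ ((x + 1) ^ k * (x + 1 + e)) * S2 := mul_le_mul_of_nonneg_right h2 hS
          _ = (x + 1) ^ k * ((x + 1 + e) * S2) := by ring
          _ ≤ _ := mul_le_mul_of_nonneg_left h1 (by positivity)
      have hp1 : 0 < x ^ k := by positivity
      have hp2 : 0 < (x + 1) ^ (k + 1) := by positivity
      calc (x + 1 + (k + e)) * (((x + 1) ^ (k + 1))⁻¹ * S2)
          = ((x + 1 + (k + e)) * x ^ k * S2) * ((x ^ k)⁻¹ * ((x + 1) ^ (k + 1))⁻¹) := by field_simp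
        _ ≤ ((x + 1) ^ k * ((x + 1) * S1)) * ((x ^ k)⁻¹ * ((x + 1) ^ (k + 1))⁻¹) :=
            mul_le_mul_of_nonneg_right h3 (by positivity)
        _ = x * ((x ^ (k + 1))⁻¹ * S1) := by
            rw [pow_succ x k, pow_succ (x + 1) k]
            field_simp
    have key : ∀ d N : ℕ, M ≤ N + 1 + d →
        ((ex ((k + 1) :: cs) : ℕ) : ℝ) * T M ((k + 1) :: cs) (N + 1) ≤ ((N : ℝ) + 1) * g M (k + 1) cs N := by
      intro d
      induction d with
      | zero =>
        intro N hN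
        rw [T_empty M (k + 1) cs (N + 1) (by omega), mul_zero]
        have := g_nonneg M (k + 1) cs N
        positivity
      | succ d ih =>
        intro N hN
        rcases Nat.lt_or_ge (N + 1) M with h | h
        · have h1 := ih (N + 1) (by omega)
          have h2 := step N
          rw [T_split M (k + 1) cs (N + 1) h, mul_add]
          push_cast at h1 h2 ⊢
          linarith
        · rw [T_empty M (k + 1) cs (N + 1) h, mul_zero]
          have := g_nonneg M (k + 1) cs N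
          positivity
    intro N
    exact key M N (by omega)
  intro cs
  induction cs with
  | nil =>
    intro h
    have h0 : ∀ N : ℕ, ((N : ℝ) + 1 + ex []) * T M [] (N + 1) ≤ ((N : ℝ) + 1) * T M [] N := by
      intro N
      rw [T_nil, T_nil, ex_nil]
      simp
    exact ⟨h0, main [] h h0⟩
  | cons c cs ih =>
    intro h
    have hc : 1 ≤ c := h c (by simp)
    have hcs : ∀ x ∈ cs, 1 ≤ x := fun x hx => h x (by simp [hx])
    obtain ⟨h1, h2⟩ := ih hcs
    have h0 : ∀ N : ℕ, ((N : ℝ) + 1 + ex (c :: cs)) * T M (c :: cs) (N + 1) ≤ ((N : ℝ) + 1) * T M (c :: cs) N := by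
      intro N
      rcases Nat.lt_or_ge N M with hN | hN
      · have h3 := h2 c hc N
        rw [T_split M c cs N hN]
        linarith
      · rw [T_empty M c cs (N + 1) (by omega), T_empty M c cs N hN]
        simp
    exact ⟨h0, main (c :: cs) h h0⟩

lemma T_stepG (M : ℕ) (cs : List ℕ) (h : ∀ x ∈ cs, 1 ≤ x) (N : ℕ) :
    ((N : ℝ) + 1 + ex cs) * T M cs (N + 1) ≤ ((N : ℝ) + 1) * T M cs N := (decay M cs h).1 N

lemma key2G (M c : ℕ) (cs : List ℕ) (hc : 1 ≤ c) (h : ∀ x ∈ cs, 1 ≤ x) (N : ℕ) (hN : 1 ≤ N) :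
    ((ex (c :: cs) : ℕ) : ℝ) * T M (c :: cs) N * (N : ℝ) ^ (c - 1) ≤ T M cs N := by
  obtain ⟨N, rfl⟩ : ∃ n, N = n + 1 := ⟨N - 1, by omega⟩
  obtain ⟨k, rfl⟩ : ∃ k, c = k + 1 := ⟨c - 1, by omega⟩
  have h1 := (decay M cs h).2 (k + 1) hc N
  rw [g] at h1
  rw [Nat.add_sub_cancel]
  have hp : (0 : ℝ) < ((N + 1 : ℕ) : ℝ) := by positivity
  calc ((ex ((k + 1) :: cs) : ℕ) : ℝ) * T M ((k + 1) :: cs) (N + 1) * ((N + 1 : ℕ) : ℝ) ^ k
      ≤ (((N : ℝ) + 1) * ((((N + 1 : ℕ) : ℝ) ^ (k + 1))⁻¹ * T M cs (N + 1))) * ((N + 1 : ℕ) : ℝ) ^ k :=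
        mul_le_mul_of_nonneg_right h1 (by positivity)
    _ = T M cs (N + 1) := by
        rw [pow_succ]
        have : (N : ℝ) + 1 = ((N + 1 : ℕ) : ℝ) := by push_cast; ring
        rw [this]
        field_simp

lemma T_stepsG (M : ℕ) (cs : List ℕ) (h : ∀ x ∈ cs, 1 ≤ x) (q : ℕ) : ∀ d : ℕ,
    (ex cs : ℝ) ^ d * T M cs (q + d) ≤ ((q + d : ℕ) : ℝ) ^ d * T M cs q := by
  intro d
  induction d with
  | zero => simp
  | succ d ih =>
    have h1 := T_stepG M cs h (q + d)
    have hT := T_nonneg M cs q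
    have hT2 := T_nonneg M cs (q + d + 1)
    have he : (0 : ℝ) ≤ ex cs := Nat.cast_nonneg _
    have hqd : (0 : ℝ) ≤ ((q + d : ℕ) : ℝ) := Nat.cast_nonneg _
    have h2 : (ex cs : ℝ) * T M cs (q + d + 1) ≤ (((q + d : ℕ) : ℝ) + 1) * T M cs (q + d) := by
      refine le_trans ?_ h1
      refine mul_le_mul_of_nonneg_right ?_ hT2
      linarith
    calc (ex cs : ℝ) ^ (d + 1) * T M cs (q + (d + 1))
        = (ex cs : ℝ) ^ d * ((ex cs : ℝ) * T M cs (q + d + 1)) := by rw [← add_assoc]; ring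
      _ ≤ (ex cs : ℝ) ^ d * ((((q + d : ℕ) : ℝ) + 1) * T M cs (q + d)) :=
          mul_le_mul_of_nonneg_left h2 (by positivity)
      _ = (((q + d : ℕ) : ℝ) + 1) * ((ex cs : ℝ) ^ d * T M cs (q + d)) := by ring
      _ ≤ (((q + d : ℕ) : ℝ) + 1) * (((q + d : ℕ) : ℝ) ^ d * T M cs q) :=
          mul_le_mul_of_nonneg_left ih (by positivity)
      _ ≤ (((q + d : ℕ) : ℝ) + 1) * ((((q + d : ℕ) : ℝ) + 1) ^ d * T M cs q) := by
          gcongr
          linarith
      _ = ((q + (d + 1) : ℕ) : ℝ) ^ (d + 1) * T M cs q := by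
          push_cast
          ring

lemma A_leG (M E N : ℕ) (hE : 2 * N ^ 2 ≤ E) : ∀ (u : List ℕ), (∀ x ∈ u, 1 ≤ x) → ∀ (c : ℕ) (cs : List ℕ),
    1 ≤ c → (∀ x ∈ cs, 1 ≤ x) → E ≤ ex (c :: cs) → u.length ≤ N →
      A M c cs u N * D u ≤ 2 * (N : ℝ) ^ (N - u.length) * T M (c :: cs) N := by
  intro u
  induction u with
  | nil =>
    intro _ c cs hc hcs hlc _
    rw [A_nil, D, mul_one, List.length_nil, Nat.sub_zero]
    have hT := T_nonneg M (c :: cs) N
    have h1 : (1 : ℝ) ≤ (N : ℝ) ^ N := by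
      rcases Nat.eq_zero_or_pos N with rfl | h
      · simp
      · exact one_le_pow₀ (by exact_mod_cast h)
    nlinarith
  | cons b u ih =>
    intro hu c cs hc hcs hlc hN
    rw [List.length_cons] at hN
    have hb : 1 ≤ b := hu b (by simp)
    have hu' : ∀ x ∈ u, 1 ≤ x := fun x hx => hu x (by simp [hx])
    have hcs' : ∀ x ∈ c :: cs, 1 ≤ x := by
      intro x hx
      rcases List.mem_cons.1 hx with rfl | hx
      · exact hc
      · exact hcs x hx
    have hex : E ≤ ex (b :: c :: cs) := by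
      rw [ex_cons hb hcs']
      omega
    have h1 := ih hu' b (c :: cs) hb hcs' hex (by omega)
    have h2 := HD_le' (b :: u) N (by rw [List.length_cons]; exact hN)
    rw [List.length_cons] at h2
    have hT := T_nonneg M (c :: cs) N
    have hTb := T_nonneg M (b :: c :: cs) N
    have h3 := key2G M b (c :: cs) hb hcs' N (by omega)
    have hN0 : (0 : ℝ) < N := by exact_mod_cast (by omega : 0 < N)
    have e1 : (N : ℝ) ^ (N - u.length) = (N : ℝ) ^ (N - (u.length + 1)) * N := by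
      rw [← pow_succ]
      congr 1
      omega
    have h4 : (2 : ℝ) * (N : ℝ) ^ 2 ≤ ((ex (b :: c :: cs) : ℕ) : ℝ) := by
      have : 2 * N ^ 2 ≤ ex (b :: c :: cs) := hE.trans hex
      exact_mod_cast this
    have hbN : ((u.length + 1 : ℕ) : ℝ) ^ b ≤ (N : ℝ) ^ b := by
      gcongr
    have h8 : 2 * ((u.length + 1 : ℕ) : ℝ) ^ b * (N * T M (b :: c :: cs) N) ≤ T M (c :: cs) N := by
      obtain ⟨k, rfl⟩ : ∃ k, b = k + 1 := ⟨b - 1, by omega⟩
      rw [Nat.add_sub_cancel] at h3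
      calc 2 * ((u.length + 1 : ℕ) : ℝ) ^ (k + 1) * (N * T M ((k + 1) :: c :: cs) N)
          ≤ 2 * (N : ℝ) ^ (k + 1) * (N * T M ((k + 1) :: c :: cs) N) := by gcongr
        _ = (2 * (N : ℝ) ^ 2) * (T M ((k + 1) :: c :: cs) N * (N : ℝ) ^ k) := by ring
        _ ≤ ((ex ((k + 1) :: c :: cs) : ℕ) : ℝ) * (T M ((k + 1) :: c :: cs) N * (N : ℝ) ^ k) :=
            mul_le_mul_of_nonneg_right h4 (by positivity)
        _ = ((ex ((k + 1) :: c :: cs) : ℕ) : ℝ) * T M ((k + 1) :: c :: cs) N * (N : ℝ) ^ k := by ring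
        _ ≤ _ := h3
    rw [A_cons, add_mul]
    have h9 : H (b :: u) N * T M (c :: cs) N * D (b :: u) ≤
        (N : ℝ) ^ (N - (u.length + 1)) * T M (c :: cs) N := by
      calc H (b :: u) N * T M (c :: cs) N * D (b :: u)
          = (H (b :: u) N * D (b :: u)) * T M (c :: cs) N := by ring
        _ ≤ _ := mul_le_mul_of_nonneg_right h2 hT
    have h10 : A M b (c :: cs) u N * D (b :: u) ≤ (N : ℝ) ^ (N - (u.length + 1)) * T M (c :: cs) N := by
      have hp : (0 : ℝ) < ((u.length + 1 : ℕ) : ℝ) ^ b := by positivity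
      have hp2 : (0 : ℝ) < (N : ℝ) ^ (N - (u.length + 1)) := by positivity
      calc A M b (c :: cs) u N * D (b :: u)
          = ((u.length + 1 : ℕ) : ℝ) ^ b * (A M b (c :: cs) u N * D u) := by rw [D]; ring
        _ ≤ ((u.length + 1 : ℕ) : ℝ) ^ b * (2 * (N : ℝ) ^ (N - u.length) * T M (b :: c :: cs) N) :=
            mul_le_mul_of_nonneg_left h1 hp.le
        _ = (N : ℝ) ^ (N - (u.length + 1)) *
            (2 * ((u.length + 1 : ℕ) : ℝ) ^ b * (N * T M (b :: c :: cs) N)) := by rw [e1]; ring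
        _ ≤ _ := mul_le_mul_of_nonneg_left h8 hp2.le
    rw [List.length_cons]
    linarith

/-- **the mass of the configurations with a gap**, for arbitrary positive letters -/
theorem gapG (p u : List ℕ) (hp : ∀ x ∈ p, 1 ≤ x) (hu : ∀ x ∈ u, 1 ≤ x) (d : ℕ) (he : 1 ≤ ex p)
    (h : 2 * (u.length + d) ^ 2 ≤ ex p) (M : ℕ) :
    U p (fun n => if u.length + d ≤ n then H u n else 0) M ≤
      2 * (((u.length + d : ℕ) : ℝ) ^ 2 / ex p) ^ d * U p (H u) M := by
  obtain ⟨c, cs, hcs⟩ : ∃ c cs, p.reverse = c :: cs := by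
    cases hr : p.reverse with
    | nil =>
      rw [List.reverse_eq_nil_iff] at hr
      rw [hr, ex_nil] at he
      omega
    | cons c cs => exact ⟨c, cs, rfl⟩
  have hp' : p = (c :: cs).reverse := by rw [← hcs, List.reverse_reverse]
  have hex : ex p = ex (c :: cs) := by rw [hp', ex_reverse]
  have hmem : ∀ x ∈ c :: cs, 1 ≤ x := by
    intro x hx
    have : x ∈ p := by rw [hp', List.mem_reverse]; exact hx
    exact hp x this
  have hc : 1 ≤ c := hmem c (by simp)
  have hcs2 : ∀ x ∈ cs, 1 ≤ x := fun x hx => hmem x (by simp [hx])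
  have h1 := A_leG M (ex p) (u.length + d) h u hu c cs hc hcs2 hex.le (by omega)
  have h2 := T_stepsG M (c :: cs) hmem u.length d
  have h3 := H_ge_D u u.length le_rfl
  have h4 := A_ge M c cs u u.length
  have h5 := A_anti M c cs u u.length
  have hT := T_nonneg M (c :: cs) u.length
  have hD := D_pos u
  have e1 : U p (fun n => if u.length + d ≤ n then H u n else 0) M = A M c cs u (u.length + d) := by
    rw [hp']
    exact A_eq M c cs u (u.length + d)
  have e2 : U p (H u) M = A M c cs u 0 := by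
    rw [hp']
    exact A_zero M c cs u
  rw [e1, e2]
  rw [Nat.add_sub_cancel_left] at h1
  rw [← hex] at h2
  set n : ℝ := ((u.length + d : ℕ) : ℝ) with hn
  have hn0 : 0 ≤ n := by positivity
  have hL : (0 : ℝ) < (ex p : ℝ) := by exact_mod_cast he
  refine le_of_mul_le_mul_right ?_ hD
  have h6 : T M (c :: cs) (u.length + d) ≤ (n / (ex p : ℝ)) ^ d * T M (c :: cs) u.length := by
    rw [div_pow, div_mul_eq_mul_div, le_div_iff₀ (by positivity)]
    linarith
  have h7 : T M (c :: cs) u.length ≤ A M c cs u 0 * D u := by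
    calc T M (c :: cs) u.length = T M (c :: cs) u.length * 1 := by ring
      _ ≤ T M (c :: cs) u.length * (H u u.length * D u) := mul_le_mul_of_nonneg_left h3 hT
      _ = (T M (c :: cs) u.length * H u u.length) * D u := by ring
      _ ≤ A M c cs u 0 * D u := mul_le_mul_of_nonneg_right (h4.trans h5) hD.le
  calc A M c cs u (u.length + d) * D u ≤ 2 * n ^ d * T M (c :: cs) (u.length + d) := h1
    _ ≤ 2 * n ^ d * ((n / (ex p : ℝ)) ^ d * T M (c :: cs) u.length) :=
        mul_le_mul_of_nonneg_left h6 (by positivity)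
    _ ≤ 2 * n ^ d * ((n / (ex p : ℝ)) ^ d * (A M c cs u 0 * D u)) := by
        gcongr
    _ = 2 * (n ^ 2 / (ex p : ℝ)) ^ d * A M c cs u 0 * D u := by
        rw [div_pow, div_pow, ← pow_mul, pow_mul' n 2 d, sq (n ^ d)]
        ring

end Pool.Agent.L5helper14.AW
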