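import Mathlib
import Pool.Agent.L5helper14.AW.Gap
import Pool.Agent.L5helper45.HW.Win

/-!
# The window lemma for arbitrary admissible indices
-/

set_option autoImplicit false

namespace Pool.Agent.L5helper14.AW

open Filter
open Pool.Agent.L5helper45.HW (XY window_trunc)
open Pool.Agent.L5helper80.MZ (U D D_pos H_ge_D)
open Pool.Agent.H447R2.MZ (H val Adm tendsto_H H_le_val)

lemma XY_ge (i : ℕ) : (∀ x ∈ (XY i).1, 1 ≤ x) ∧ ∀ x ∈ (XY i).2, 1 ≤ x := by
  induction i with
  | zero =>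
    constructor
    · intro x hx
      simp only [XY, List.mem_cons, List.not_mem_nil, or_false] at hx
      omega
    · intro x hx
      simp only [XY, List.mem_cons, List.not_mem_nil, or_false] at hx
      omega
  | succ i ih =>
    obtain ⟨h1, h2⟩ := ih
    constructor
    · intro x hx
      rw [XY, List.mem_append] at hx
      exact hx.elim (h1 x) (h2 x)
    · intro x hx
      rw [XY, List.mem_append] at hx
      exact hx.elim (h2 x) (h1 x)

lemma XY_len (i : ℕ) : (XY i).1.length = 2 ^ (i + 1) ∧ (XY i).2.length = 2 ^ (i + 1) :=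
  Pool.Agent.L5helper39.HW.XY_len i

lemma val_pos {w : List ℕ} (h : Adm w) : 0 < val w := by
  have h1 := H_ge_D w w.length le_rfl
  have h2 := D_pos w
  have h3 := H_le_val w h w.length
  have h4 : 0 < H w w.length := by
    by_contra h5
    push Not at h5
    nlinarith
  linarith

lemma adm_app {p w : List ℕ} (hp : Adm p) (hp0 : p ≠ []) (hw : ∀ x ∈ w, 1 ≤ x) : Adm (p ++ w) := by
  constructor
  · intro x hx
    rw [List.mem_append] at hx
    exact hx.elim (hp.1 x) (hw x)
  · intro a t h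
    cases p with
    | nil => exact absurd rfl hp0
    | cons b p =>
      rw [List.cons_append] at h
      have := hp.2 b p rfl
      have := (List.cons.inj h).1
      omega

/-- **the window lemma** for arbitrary admissible indices -/
theorem windowG (I : ℕ) : ∃ (c : ℝ) (J : ℕ), 0 < c ∧ 1 ≤ J ∧ ∀ (p q : List ℕ), Adm p → (∀ x ∈ q, 1 ≤ x) → J ≤ q.length →
    q.length ^ 6 ≤ ex p →
      2 / 3 * c / (q.length : ℝ) ^ (I + 1) ≤
        |Real.log (val (p ++ ((XY I).1 ++ q))) - Real.log (val (p ++ ((XY I).2 ++ q)))| ∧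
      |Real.log (val (p ++ ((XY I).1 ++ q))) - Real.log (val (p ++ ((XY I).2 ++ q)))| ≤
        4 / 3 * c / (q.length : ℝ) ^ (I + 1) := by
  obtain ⟨c, J, hc, hJ, h⟩ := window_trunc I
  have hp2 : 0 < 2 ^ (I + 1) := Nat.two_pow_pos _
  obtain ⟨s, hs⟩ : ∃ s, s = 2 ^ (I + 1) := ⟨_, rfl⟩
  refine ⟨c, J + 4 + s + (I + 2), hc, by omega, fun p q hp hq hJq hpq => ?_⟩
  set j := q.length with hj
  have hl1 : 1 ≤ ex p := by
    have : 1 ≤ j ^ 6 := Nat.one_le_pow _ _ (by omega)
    omega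
  have hp0 : p ≠ [] := by
    rintro rfl
    rw [ex_nil] at hl1
    omega
  have hq1 : ∀ x ∈ (XY I).1 ++ q, 1 ≤ x := by
    intro x hx
    rw [List.mem_append] at hx
    exact hx.elim ((XY_ge I).1 x) (hq x)
  have hq2 : ∀ x ∈ (XY I).2 ++ q, 1 ≤ x := by
    intro x hx
    rw [List.mem_append] at hx
    exact hx.elim ((XY_ge I).2 x) (hq x)
  have h1 : Adm (p ++ ((XY I).1 ++ q)) := adm_app hp hp0 hq1
  have h2 : Adm (p ++ ((XY I).2 ++ q)) := adm_app hp hp0 hq2
  have hlr : 2 * (s + j + (I + 2)) ^ 2 ≤ ex p := by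
    have e1 : (s + j + (I + 2)) ^ 2 ≤ (2 * j) ^ 2 := Nat.pow_le_pow_left (by omega) 2
    have e3 : 8 * j ^ 2 ≤ j ^ 6 := by
      have h4 : 8 ≤ j ^ 4 := by
        have h5 : 4 ^ 4 ≤ j ^ 4 := Nat.pow_le_pow_left (by omega) 4
        omega
      calc 8 * j ^ 2 ≤ j ^ 4 * j ^ 2 := Nat.mul_le_mul_right _ h4
        _ = j ^ 6 := by ring
    have e4 : (2 * j) ^ 2 = 4 * j ^ 2 := by ring
    omega
  have hgap : ∀ M, ∀ u : List ℕ, (u = (XY I).1 ++ q ∨ u = (XY I).2 ++ q) → ∀ e : ℕ, (e = 1 ∨ e = I + 2) →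
      U p (fun n => if u.length + e ≤ n then H u n else 0) M ≤
        2 * (((u.length + e : ℕ) : ℝ) ^ 2 / (ex p : ℝ)) ^ e * U p (H u) M := by
    intro M u hu e he
    have hu1 : ∀ x ∈ u, 1 ≤ x := by
      rcases hu with rfl | rfl
      · exact hq1
      · exact hq2
    have hul : u.length = s + j := by
      rcases hu with rfl | rfl
      · rw [List.length_append, (XY_len I).1, hs]
      · rw [List.length_append, (XY_len I).2, hs]
    refine gapG p u hp.1 hu1 e hl1 ?_ M
    refine le_trans ?_ hlr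
    have : u.length + e ≤ s + j + (I + 2) := by
      rcases he with rfl | rfl <;> omega
    gcongr
  have hc6 : (j : ℝ) ^ 6 ≤ (ex p : ℝ) := by exact_mod_cast hpq
  have h' := fun M hM => h p q (ex p : ℝ) (by omega) hc6 M hM (hgap M)
  have t1 := (tendsto_H _ h1).log (val_pos h1).ne'
  have t2 := (tendsto_H _ h2).log (val_pos h2).ne'
  have t3 := (t1.sub t2).const_mul ((-1 : ℝ) ^ I)
  have hev : ∀ᶠ M : ℕ in atTop, p.length + ((XY I).1 ++ q).length ≤ M := eventually_ge_atTop _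
  have l1 := ge_of_tendsto t3 (hev.mono fun M hM => (h' M hM).1)
  have l2 := le_of_tendsto t3 (hev.mono fun M hM => (h' M hM).2)
  have hpos : 0 ≤ (-1 : ℝ) ^ I * (Real.log (val (p ++ ((XY I).1 ++ q))) - Real.log (val (p ++ ((XY I).2 ++ q)))) :=
    le_trans (by positivity) l1
  have e : |Real.log (val (p ++ ((XY I).1 ++ q))) - Real.log (val (p ++ ((XY I).2 ++ q)))| =
      (-1 : ℝ) ^ I * (Real.log (val (p ++ ((XY I).1 ++ q))) - Real.log (val (p ++ ((XY I).2 ++ q)))) := by
    rw [← abs_of_nonneg hpos, abs_mul, abs_pow, abs_neg, abs_one, one_pow, one_mul]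
  rw [e]
  exact ⟨l1, l2⟩

end Pool.Agent.L5helper14.AW
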