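import Mathlib
import Pool.Agent.L5helper14.AW.Win
import Pool.Agent.L5helper59.AW.Cnt
import Pool.Agent.L5helper79.AW.Orb
import Pool.Agent.L5helper15.HW.Par
import Pool.Agent.L5helper5.PM.Bits

/-!
# Few admissible indices of weight `k` have a value in a given interval of relative length `k ^ (-B)`
-/

set_option autoImplicit false

namespace Pool.Agent.L5helper14.AW

open Finset
open Pool.Agent.L5helper45.HW (Hit XY)
open Pool.Agent.H447R2.MZ (val Adm)
open Pool.Agent.L5helper5.PM (AI mem_AI card_AI)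
open Pool.Agent.L5helper59.AW (avoid small_excess)

lemma XY_sum (i : ℕ) : (XY i).1.sum = 5 * 2 ^ i ∧ (XY i).2.sum = 5 * 2 ^ i := by
  induction i with
  | zero => simp [XY]
  | succ i ih =>
    rw [XY]
    simp only [List.sum_append, ih.1, ih.2]
    constructor <;> ring

lemma XY_ne (i : ℕ) : (XY i).1 ≠ (XY i).2 := by
  induction i with
  | zero => simp [XY]
  | succ i ih =>
    intro h
    rw [XY] at h
    simp only at h
    have := List.append_inj_left h ((XY_len i).1.trans (XY_len i).2.symm)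
    exact ih this

/-- the words considered, from the innermost letter: reversed admissible indices of weight `k` such that the letters after the
first `J` have excess larger than `m` -/
def Good (k J m : ℕ) (w : List ℕ) : Prop :=
  (∀ x ∈ w, 1 ≤ x) ∧ w.sum = k ∧ (∀ a t, w.reverse = a :: t → 2 ≤ a) ∧ m < ex (w.drop J)

open Classical in
noncomputable def Wg (k J m : ℕ) : Finset (List ℕ) := (Cp k).filter (Good k J m)

lemma mem_Wg (k J m : ℕ) (w : List ℕ) : w ∈ Wg k J m ↔ Good k J m w := by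
  classical
  unfold Wg
  rw [Finset.mem_filter, mem_Cp]
  constructor
  · exact fun h => h.2
  · exact fun h => ⟨⟨h.1, h.2.1⟩, h⟩

lemma ex_drop_le {w : List ℕ} (h : ∀ x ∈ w, 1 ≤ x) (n : ℕ) : ex (w.drop n) ≤ ex w := by
  have h1 : w.take n ++ w.drop n = w := List.take_append_drop n w
  have h2 := ex_app (v := w.take n) (w := w.drop n) (fun x hx => h x (List.mem_of_mem_take hx))
    (fun x hx => h x (List.mem_of_mem_drop hx))
  rw [h1] at h2
  omega

lemma Good_len {k J m : ℕ} {w : List ℕ} (h : Good k J m w) : J < w.length := by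
  by_contra h1
  push Not at h1
  have h2 := h.2.2.2
  rw [List.drop_eq_nil_of_le h1, ex_nil] at h2
  omega

/-- replacing a block in the first `J` letters -/
lemma Good_rep {k J m : ℕ} {u v X Y : List ℕ} (hl : X.length = Y.length) (hs : X.sum = Y.sum) (hY : ∀ x ∈ Y, 1 ≤ x)
    (hJ : u.length + X.length ≤ J) (h : Good k J m (u ++ X ++ v)) : Good k J m (u ++ Y ++ v) := by
  obtain ⟨h1, h2, h3, h4⟩ := h
  have hd : ∀ Z : List ℕ, Z.length = X.length → (u ++ Z ++ v).drop J = v.drop (J - (u.length + X.length)) := by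
    intro Z hZ
    have hlen : (u ++ Z).length = u.length + X.length := by rw [List.length_append, hZ]
    rw [List.drop_append, hlen, List.drop_eq_nil_of_le (by rw [hlen]; exact hJ), List.nil_append]
  refine ⟨fun x hx => ?_, ?_, ?_, ?_⟩
  · rw [List.mem_append, List.mem_append] at hx
    rcases hx with (hx | hx) | hx
    · exact h1 x (by simp [hx])
    · exact hY x hx
    · exact h1 x (by simp [hx])
  · rw [List.sum_append, List.sum_append] at h2 ⊢
    rw [← hs]; exact h2
  · -- `v` is not empty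
    have hv : v ≠ [] := by
      rintro rfl
      rw [hd X rfl, List.drop_nil, ex_nil] at h4
      omega
    obtain ⟨b, t, hb⟩ : ∃ b t, v.reverse = b :: t := by
      cases hr : v.reverse with
      | nil => exact absurd (List.reverse_eq_nil_iff.1 hr) hv
      | cons b t => exact ⟨b, t, rfl⟩
    have h5 := h3 b (t ++ (u ++ X).reverse) (by rw [List.reverse_append, hb, List.cons_append])
    intro a t' h6
    rw [List.reverse_append, hb, List.cons_append] at h6
    have := (List.cons.inj h6).1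
    omega
  · rw [hd Y hl.symm]
    rw [hd X rfl] at h4
    exact h4

/-- the counting of the words with a bad scale -/
lemma nohit_count (X Y : List ℕ) (hX : ∀ x ∈ X, 1 ≤ x) (hX1 : X ≠ []) (k J m q n : ℕ) (a : ℕ → ℕ)
    (ha : ∀ i < q, a i + n * X.length ≤ J) [DecidablePred fun w => ∃ i < q, ∀ t < n, ¬ Hit X Y w (a i + t * X.length)] :
    (((Wg k J m).filter fun w => ∃ i < q, ∀ t < n, ¬ Hit X Y w (a i + t * X.length)).card : ℝ) ≤
      q * (2 ^ k * (1 - (2 ^ X.sum)⁻¹) ^ n) := by
  classical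
  have h1 : ((Wg k J m).filter fun w => ∃ i < q, ∀ t < n, ¬ Hit X Y w (a i + t * X.length)) ⊆
      (range q).biUnion fun i => (Cp k).filter fun w => a i + n * X.length ≤ w.length ∧
        ∀ t < n, (w.drop (a i + t * X.length)).take X.length ≠ X := by
    intro w hw
    rw [mem_filter, mem_Wg] at hw
    obtain ⟨hg, i, hi, hn⟩ := hw
    rw [mem_biUnion]
    refine ⟨i, mem_range.2 hi, ?_⟩
    rw [mem_filter, mem_Cp]
    refine ⟨⟨hg.1, hg.2.1⟩, ?_, fun t ht h => hn t ht (Or.inl h)⟩
    have := Good_len hg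
    have := ha i hi
    omega
  have h2 : (((Wg k J m).filter fun w => ∃ i < q, ∀ t < n, ¬ Hit X Y w (a i + t * X.length)).card : ℝ) ≤
      ∑ i ∈ range q, (((Cp k).filter fun w => a i + n * X.length ≤ w.length ∧
        ∀ t < n, (w.drop (a i + t * X.length)).take X.length ≠ X).card : ℝ) := by
    have h3 := (card_le_card h1).trans card_biUnion_le
    exact_mod_cast h3
  refine h2.trans ?_
  have h3 : ∀ i ∈ range q, (((Cp k).filter fun w => a i + n * X.length ≤ w.length ∧
        ∀ t < n, (w.drop (a i + t * X.length)).take X.length ≠ X).card : ℝ) ≤ 2 ^ k * (1 - (2 ^ X.sum)⁻¹) ^ n := by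
    intro i _
    have := avoid X hX hX1 (a i) n k
    convert this
  refine (sum_le_card_nsmul _ _ _ h3).trans (le_of_eq ?_)
  rw [card_range, nsmul_eq_mul]

lemma geo_small (A : ℕ) : ∃ C : ℝ, 0 < C ∧ ∀ k : ℕ, (17 / 20 : ℝ) ^ k * (k : ℝ) ^ A ≤ C := by
  have h1 := tendsto_pow_const_mul_const_pow_of_abs_lt_one A (show |(17 / 20 : ℝ)| < 1 by rw [abs_of_pos (by norm_num)]; norm_num)
  obtain ⟨C, hC⟩ := h1.bddAbove_range
  refine ⟨max C 1, by positivity, fun k => ?_⟩
  have h2 : (k : ℝ) ^ A * (17 / 20 : ℝ) ^ k ≤ C := hC ⟨k, rfl⟩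
  rw [mul_comm]
  exact h2.trans (le_max_left _ _)

/-- the number of the words whose upper part has small excess -/
lemma small_count (k J m : ℕ) (hJ : 12 * J ≤ k) (hm : 12 * m ≤ k) :
    (((Cp k).filter fun w => ex (w.drop J) ≤ m).card : ℝ) ≤ (17 / 20) ^ k * 2 ^ k := by
  refine (small_excess J m k).trans ?_
  have h1 : (2 : ℝ) ^ (J + m) ≤ (1133 / 1000) ^ k := by
    have h2 : ((2 : ℝ) ^ (J + m)) ^ 6 ≤ ((1133 / 1000) ^ k) ^ 6 := by
      rw [← pow_mul, ← pow_mul]
      calc (2 : ℝ) ^ ((J + m) * 6) ≤ 2 ^ k := pow_le_pow_right₀ (by norm_num) (by omega)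
        _ ≤ ((1133 / 1000) ^ 6) ^ k := by
          refine pow_le_pow_left₀ (by norm_num) ?_ k
          norm_num
        _ = (1133 / 1000) ^ (k * 6) := by rw [← pow_mul, mul_comm]
    exact le_of_pow_le_pow_left₀ (by norm_num) (by positivity) h2
  calc (2 : ℝ) ^ (J + m) * (3 / 2) ^ k ≤ (1133 / 1000) ^ k * (3 / 2) ^ k :=
        mul_le_mul_of_nonneg_right h1 (by positivity)
    _ = (1133 / 1000 * (3 / 2)) ^ k := by rw [mul_pow]
    _ ≤ (17 / 20 * 2) ^ k := by
        refine pow_le_pow_left₀ (by norm_num) ?_ k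
        norm_num
    _ = _ := by rw [mul_pow]

lemma XY_reverse_len (I : ℕ) : (XY I).1.reverse.length = (XY I).2.reverse.length := by
  rw [List.length_reverse, List.length_reverse, (XY_len I).1, (XY_len I).2]

open Classical in
/-- **few words in a window**, logarithmic form, large weights -/
theorem few_log (A : ℕ) : ∃ (K B : ℕ) (C : ℝ), 0 < C ∧ ∀ k : ℕ, K ≤ k → ∀ κ : ℕ, k ≤ κ → ∀ y : ℝ,
    (((AI κ).filter fun w => y ≤ Real.log (val w) ∧ Real.log (val w) ≤ y + 1 / (k : ℝ) ^ B).card : ℝ) ≤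
      C / (k : ℝ) ^ A * 2 ^ (κ - 2) := by
  obtain ⟨I, hI⟩ : ∃ I : ℕ, I = 700 * (A + 1) := ⟨_, rfl⟩
  obtain ⟨c, J0, hc, hJ0, hwin⟩ := windowG I
  set X := (XY I).1.reverse with hX
  set Y := (XY I).2.reverse with hY
  have hlX : X.length = 2 ^ (I + 1) := by rw [hX, List.length_reverse, (XY_len I).1]
  have hlY : Y.length = 2 ^ (I + 1) := by rw [hY, List.length_reverse, (XY_len I).2]
  have hl : X.length = Y.length := by rw [hlX, hlY]
  have hXs : X.sum = 5 * 2 ^ I := by rw [hX, List.sum_reverse, (XY_sum I).1]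
  have hYs : Y.sum = 5 * 2 ^ I := by rw [hY, List.sum_reverse, (XY_sum I).2]
  have hX1 : ∀ x ∈ X, 1 ≤ x := fun x hx => (XY_ge I).1 x (by rwa [hX, List.mem_reverse] at hx)
  have hY1 : ∀ x ∈ Y, 1 ≤ x := fun x hx => (XY_ge I).2 x (by rwa [hY, List.mem_reverse] at hx)
  have hXY : X ≠ Y := fun h => XY_ne I (List.reverse_injective h)
  have hs1 : 1 ≤ 2 ^ (I + 1) := Nat.one_le_two_pow
  have hXne : X ≠ [] := by
    intro h
    rw [h, List.length_nil] at hlX
    omega
  obtain ⟨s, hs⟩ : ∃ s : ℕ, s = 2 ^ (I + 1) := ⟨_, rfl⟩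
  rw [← hs] at hlX hlY hs1
  set cb : ℝ := (2 ^ X.sum)⁻¹ with hcb
  have hcb0 : 0 < cb := by rw [hcb]; positivity
  have hcb1 : cb ≤ 1 := inv_le_one_of_one_le₀ (one_le_pow₀ (by norm_num))
  obtain ⟨K, B, C, hC, hpar⟩ := Pool.Agent.L5helper45.HW.params I J0 c cb hc hcb0 s hs1 A (by omega)
  obtain ⟨C', hC', hgeo⟩ := geo_small A
  refine ⟨4 * K + 20, B, 4 * C' + C * 8 ^ A, by positivity, fun k hk κ hκ y => ?_⟩
  set k' : ℕ := k / 4 with hk'
  have hk'K : K ≤ k' := by omega
  obtain ⟨q, n, a, lo, hi, p1, p2, p3, p4, p5⟩ := hpar k' hk'K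
  set J : ℕ := k / 12 with hJ
  have hk0 : (0 : ℝ) < k := by exact_mod_cast (by omega : 0 < k)
  have hk'0 : (0 : ℝ) < k' := by exact_mod_cast (by omega : 0 < k')
  have haJ : ∀ i < q, a i + n * s ≤ J := fun i hi => by
    have := p2 i hi
    omega
  have hBle : 1 / (k : ℝ) ^ B ≤ 1 / (k' : ℝ) ^ B := by
    apply one_div_le_one_div_of_le (by positivity)
    have : (k' : ℝ) ≤ k := by exact_mod_cast (Nat.div_le_self k 4)
    exact pow_le_pow_left₀ hk'0.le this B
  set ε : ℝ := 1 / (k' : ℝ) ^ B with hε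
  set L : List ℕ → ℝ := fun w => Real.log (val w.reverse) with hL
  set W := Wg κ J J with hW
  -- the swaps
  have hsw := swapsG X Y hl hXY W q n a (by rw [hlX]; exact p1) (by
      intro i hi t ht u v hu
      have hle : u.length + X.length ≤ J := by
        have h1 := haJ i hi
        have h2 : (t + 1) * s ≤ n * s := Nat.mul_le_mul_right _ ht
        rw [add_mul, one_mul] at h2
        rw [hu, hlX]
        omega
      rw [hW, mem_Wg, mem_Wg]
      constructor
      · exact Good_rep hl (hXs.trans hYs.symm) hY1 hle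
      · exact Good_rep hl.symm (hYs.trans hXs.symm) hX1 (by rw [← hl]; exact hle)) L lo hi (by
      intro i hi t ht u v hu hmem
      rw [hW, mem_Wg] at hmem
      rw [hlX] at hu
      obtain ⟨h1, h2, h3, h4⟩ := hmem
      have hle : u.length + X.length ≤ J := by
        have h1 := haJ i hi
        have h2 : (t + 1) * s ≤ n * s := Nat.mul_le_mul_right _ ht
        rw [add_mul, one_mul] at h2
        rw [hu, hlX]
        omega
      have hlen : (u ++ X).length = u.length + X.length := List.length_append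
      have hdrop : (u ++ X ++ v).drop J = v.drop (J - (u.length + X.length)) := by
        rw [List.drop_append, hlen, List.drop_eq_nil_of_le (by rw [hlen]; exact hle), List.nil_append]
      have hv1 : ∀ x ∈ v, 1 ≤ x := fun x hx => h1 x (by simp [hx])
      have hu1 : ∀ x ∈ u, 1 ≤ x := fun x hx => h1 x (by simp [hx])
      rw [hdrop] at h4
      have hexv : J < ex v := lt_of_lt_of_le h4 (ex_drop_le hv1 _)
      have hv : v ≠ [] := by
        rintro rfl
        rw [ex_nil] at hexv
        omega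
      have hadm : Adm v.reverse := by
        refine ⟨fun x hx => hv1 x (List.mem_reverse.1 hx), fun a t hat => ?_⟩
        refine h3 a (t ++ (u ++ X).reverse) ?_
        rw [List.reverse_append, hat, List.cons_append]
      obtain ⟨q1, q2, q3, q4⟩ := p3 i hi t ht
      have hw := hwin v.reverse u.reverse hadm (fun x hx => hu1 x (List.mem_reverse.1 hx))
        (by rw [List.length_reverse, hu]; exact q1) (by
          rw [List.length_reverse, ex_reverse, hu]
          omega)
      rw [List.length_reverse, hu] at hw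
      have e1 : (u ++ X ++ v).reverse = v.reverse ++ ((XY I).1 ++ u.reverse) := by
        rw [List.reverse_append, List.reverse_append, hX, List.reverse_reverse]
      have e2 : (u ++ Y ++ v).reverse = v.reverse ++ ((XY I).2 ++ u.reverse) := by
        rw [List.reverse_append, List.reverse_append, hY, List.reverse_reverse]
      simp only [hL]
      rw [e1, e2]
      exact ⟨q3.trans hw.1, hw.2.trans q4⟩) ε p4 y
  -- the three parts
  have hsub : (((AI κ).filter fun w => y ≤ Real.log (val w) ∧ Real.log (val w) ≤ y + 1 / (k : ℝ) ^ B).card : ℝ) ≤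
      (((Cp κ).filter fun w => ex (w.drop J) ≤ J).card : ℝ) +
      ((W.filter fun w => ∃ i < q, ∀ t < n, ¬ Hit X Y w (a i + t * X.length)).card : ℝ) +
      ((W.filter fun w => (∀ i < q, ∃ t < n, Hit X Y w (a i + t * X.length)) ∧ y ≤ L w ∧ L w ≤ y + ε).card : ℝ) := by
    have h1 : (((AI κ).filter fun w => y ≤ Real.log (val w) ∧ Real.log (val w) ≤ y + 1 / (k : ℝ) ^ B).image List.reverse) ⊆
        ((Cp κ).filter fun w => ex (w.drop J) ≤ J) ∪
        (W.filter fun w => ∃ i < q, ∀ t < n, ¬ Hit X Y w (a i + t * X.length)) ∪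
        (W.filter fun w => (∀ i < q, ∃ t < n, Hit X Y w (a i + t * X.length)) ∧ y ≤ L w ∧ L w ≤ y + ε) := by
      intro w hw
      rw [mem_image] at hw
      obtain ⟨v, hv, rfl⟩ := hw
      rw [mem_filter, mem_AI (by omega)] at hv
      obtain ⟨⟨⟨g1, g2⟩, g3⟩, g4, g5⟩ := hv
      have gc : v.reverse ∈ Cp κ := by
        rw [mem_Cp]
        exact ⟨fun x hx => g1 x (List.mem_reverse.1 hx), by rw [List.sum_reverse]; exact g3⟩
      by_cases hex : ex (v.reverse.drop J) ≤ J
      · refine mem_union_left _ (mem_union_left _ ?_)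
        rw [mem_filter]
        exact ⟨gc, hex⟩
      push Not at hex
      have hgood : v.reverse ∈ W := by
        rw [hW, mem_Wg]
        refine ⟨fun x hx => g1 x (List.mem_reverse.1 hx), by rw [List.sum_reverse]; exact g3, fun a t hat => ?_, hex⟩
        rw [List.reverse_reverse] at hat
        exact g2 a t hat
      by_cases hhit : ∃ i < q, ∀ t < n, ¬ Hit X Y v.reverse (a i + t * X.length)
      · refine mem_union_left _ (mem_union_right _ ?_)
        rw [mem_filter]
        exact ⟨hgood, hhit⟩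
      · push Not at hhit
        refine mem_union_right _ ?_
        rw [mem_filter]
        refine ⟨hgood, hhit, ?_, ?_⟩
        · simp only [hL]
          rw [List.reverse_reverse]
          exact g4
        · simp only [hL]
          rw [List.reverse_reverse]
          linarith
    have h2 := card_le_card h1
    rw [card_image_of_injective _ List.reverse_injective] at h2
    have h3 := (h2.trans (card_union_le _ _)).trans (Nat.add_le_add_right (card_union_le _ _) _)
    exact_mod_cast h3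
  refine hsub.trans ?_
  have c1 := small_count κ J J (by omega) (by omega)
  have c2 := nohit_count X Y hX1 hXne κ J J q n a (by rw [hlX]; exact haJ)
  -- the size of `W`
  have c3 : (W.card : ℝ) ≤ 2 ^ (κ - 2) := by
    have h1 : W.image List.reverse ⊆ AI κ := by
      intro w hw
      rw [mem_image] at hw
      obtain ⟨v, hv, rfl⟩ := hw
      rw [hW, mem_Wg] at hv
      obtain ⟨g1, g2, g3, -⟩ := hv
      rw [mem_AI (by omega)]
      exact ⟨⟨fun x hx => g1 x (List.mem_reverse.1 hx), g3⟩, by rw [List.sum_reverse]; exact g2⟩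
    have h2 := card_le_card h1
    rw [card_image_of_injective _ List.reverse_injective, card_AI] at h2
    exact_mod_cast h2
  have c4 : ((W.filter fun w => (∀ i < q, ∃ t < n, Hit X Y w (a i + t * X.length)) ∧ y ≤ L w ∧ L w ≤ y + ε).card : ℝ) ≤
      1 / 2 ^ q * 2 ^ (κ - 2) := by
    have h1 : ((W.filter fun w => (∀ i < q, ∃ t < n, Hit X Y w (a i + t * X.length)) ∧ y ≤ L w ∧ L w ≤ y + ε).card : ℝ) *
        2 ^ q ≤ W.card := by exact_mod_cast hsw
    rw [one_div, inv_mul_eq_div, le_div_iff₀ (by positivity)]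
    exact h1.trans c3
  have e4 : (2 : ℝ) ^ κ = 4 * 2 ^ (κ - 2) := by
    have : κ = (κ - 2) + 2 := by omega
    conv_lhs => rw [this]
    rw [pow_add]; norm_num; ring
  have c5 : (1 - cb) ^ n ≤ Real.exp (-(cb * n)) := by
    have h1 : 1 - cb ≤ Real.exp (-cb) := by
      have := Real.add_one_le_exp (-cb)
      linarith
    calc (1 - cb) ^ n ≤ Real.exp (-cb) ^ n := pow_le_pow_left₀ (by linarith) h1 n
      _ = Real.exp (-(cb * n)) := by
        rw [← Real.exp_nat_mul]
        congr 1
        ring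
  have c6 : (17 / 20 : ℝ) ^ κ ≤ C' / (k : ℝ) ^ A := by
    refine (pow_le_pow_of_le_one (by norm_num) (by norm_num) hκ).trans ?_
    rw [le_div_iff₀ (by positivity)]
    exact hgeo k
  have c7 : C / (k' : ℝ) ^ A ≤ C * 8 ^ A / (k : ℝ) ^ A := by
    rw [div_le_div_iff₀ (by positivity) (by positivity), mul_assoc, ← mul_pow]
    refine mul_le_mul_of_nonneg_left ?_ hC.le
    refine pow_le_pow_left₀ hk0.le ?_ A
    have : k ≤ 8 * k' := by omega
    exact_mod_cast this
  set P : ℝ := 2 ^ (κ - 2) with hP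
  have hP0 : 0 < P := by positivity
  rw [e4] at c1 c2
  have c8 : (q : ℝ) * (4 * P * (1 - cb) ^ n) ≤ 4 * q * Real.exp (-(cb * n)) * P := by
    calc (q : ℝ) * (4 * P * (1 - cb) ^ n) ≤ (q : ℝ) * (4 * P * Real.exp (-(cb * n))) := by gcongr
      _ = _ := by ring
  have c9 : (17 / 20 : ℝ) ^ κ * (4 * P) ≤ C' / (k : ℝ) ^ A * (4 * P) := by gcongr
  calc _ ≤ C' / (k : ℝ) ^ A * (4 * P) + 4 * q * Real.exp (-(cb * n)) * P + 1 / 2 ^ q * P := by
        have c2' := c2.trans c8
        linarith
    _ = C' / (k : ℝ) ^ A * (4 * P) + (1 / 2 ^ q + 4 * q * Real.exp (-(cb * n))) * P := by ring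
    _ ≤ C' / (k : ℝ) ^ A * (4 * P) + (C * 8 ^ A / (k : ℝ) ^ A) * P := by
        have := mul_le_mul_of_nonneg_right (p5.trans c7) hP0.le
        linarith
    _ = _ := by
        field_simp

open Classical in
/-- **few words in a window**: for every power `A` -/
theorem few (A : ℕ) : ∃ (B : ℕ) (C : ℝ), 0 < C ∧ ∀ k κ : ℕ, 2 ≤ k → k ≤ κ → ∀ y : ℝ, 0 < y →
    (((AI κ).filter fun w : List ℕ => y ≤ val w ∧ val w ≤ (1 + 1 / (k : ℝ) ^ B) * y).card : ℝ) ≤
      C / (k : ℝ) ^ A * 2 ^ (κ - 2) := by
  obtain ⟨K, B, C, hC, h⟩ := few_log A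
  refine ⟨B, C + (K : ℝ) ^ A, by positivity, fun k κ hk hκ y hy => ?_⟩
  have hk0 : (0 : ℝ) < k := by exact_mod_cast (by omega : 0 < k)
  rcases Nat.lt_or_ge k K with hkK | hkK
  · have h1 : (((AI κ).filter fun w : List ℕ => y ≤ val w ∧ val w ≤ (1 + 1 / (k : ℝ) ^ B) * y).card : ℝ) ≤ 2 ^ (κ - 2) := by
      have h2 := card_filter_le (AI κ) fun w : List ℕ => y ≤ val w ∧ val w ≤ (1 + 1 / (k : ℝ) ^ B) * y
      rw [card_AI] at h2
      exact_mod_cast h2
    refine h1.trans ?_
    have h3 : (1 : ℝ) ≤ (C + (K : ℝ) ^ A) / (k : ℝ) ^ A := by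
      rw [le_div_iff₀ (by positivity), one_mul]
      have : (k : ℝ) ^ A ≤ (K : ℝ) ^ A := pow_le_pow_left₀ hk0.le (by exact_mod_cast hkK.le) A
      linarith
    calc (2 : ℝ) ^ (κ - 2) = 1 * 2 ^ (κ - 2) := by ring
      _ ≤ _ := mul_le_mul_of_nonneg_right h3 (by positivity)
  · have h1 : ((AI κ).filter fun w : List ℕ => y ≤ val w ∧ val w ≤ (1 + 1 / (k : ℝ) ^ B) * y) ⊆
        ((AI κ).filter fun w : List ℕ => Real.log y ≤ Real.log (val w) ∧ Real.log (val w) ≤ Real.log y + 1 / (k : ℝ) ^ B) := by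
      intro w hw
      rw [mem_filter] at hw ⊢
      obtain ⟨h2, h3, h4⟩ := hw
      refine ⟨h2, Real.log_le_log hy h3, ?_⟩
      have hv : 0 < val w := lt_of_lt_of_le hy h3
      have hb : (0 : ℝ) < 1 / (k : ℝ) ^ B := by positivity
      calc Real.log (val w) ≤ Real.log ((1 + 1 / (k : ℝ) ^ B) * y) := Real.log_le_log hv h4
        _ = Real.log (1 + 1 / (k : ℝ) ^ B) + Real.log y := Real.log_mul (by positivity) hy.ne'
        _ ≤ 1 / (k : ℝ) ^ B + Real.log y := by
            have := Real.log_le_sub_one_of_pos (show (0 : ℝ) < 1 + 1 / (k : ℝ) ^ B by positivity)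
            linarith
        _ = _ := by ring
    have h5 : (((AI κ).filter fun w : List ℕ => y ≤ val w ∧ val w ≤ (1 + 1 / (k : ℝ) ^ B) * y).card : ℝ) ≤
        (((AI κ).filter fun w : List ℕ => Real.log y ≤ Real.log (val w) ∧ Real.log (val w) ≤ Real.log y + 1 / (k : ℝ) ^ B).card : ℝ) := by
      exact_mod_cast card_le_card h1
    refine (h5.trans (h k hkK κ hκ (Real.log y))).trans ?_
    have h6 : C / (k : ℝ) ^ A ≤ (C + (K : ℝ) ^ A) / (k : ℝ) ^ A := by
      apply div_le_div_of_nonneg_right _ (by positivity)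
      have : (0 : ℝ) ≤ (K : ℝ) ^ A := by positivity
      linarith
    exact mul_le_mul_of_nonneg_right h6 (by positivity)

end Pool.Agent.L5helper14.AW
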